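import Pool.Agent.Run7.h430.OD.E
import Pool.Agent.Run7.h430.OD.F
import Pool.Agent.Results.MP_967f73_nt.AliquotSums

/-!
# Aliquot sums, cototients and similar numbers are differences of two primes

Let `s(m) = σ(m) - m` be the sum of the proper divisors of `m`. For almost all even integers `m` which have a prime factor
larger than `m^(3/10 + ρ)` the numbers `s(m)` and `m - φ(m)` are differences of two primes, and every window of a length of
at least `n / (log n)^K` below `n (log n)^K`, `n = s(m)` or `n = m - φ(m)`, contains at least `1 / 21` of the number of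
primes `p` with `p + n` prime which Hardy and Littlewood predict. At least 70 per cent of all even `m` have this property. If
the prime factor is larger than `m^(1/3 + ρ)`, the formula of Hardy and Littlewood holds, for all scales `x` between
`n (log n)^(C + 8)` and `n (log n)^K`, for the primes `p` in ALL residue classes of ALL moduli `q ≤ (log x)^K`, and with an
error of at most `x / (log x)^C`. The same is true for all linear combinations `n = α m + β f(m)`, where `f` is any positive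
multiplicative function of moderate growth with `f(p) = p + c`, `c ≠ 0`, for all large primes `p`, as long as `n` is
positive and not very small. These functions are not multiplicative, nothing is known on the distribution of their values
in residue classes to large moduli, and their values are taken with large multiplicities.

The starting result `TotientDifferences` treats the shifted values `f(m) + a`; the starting result `AliquotSums` on another
problem treats the sums (not the differences) of two primes, without progressions.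

Proof. Write `m = k p` with the large prime factor `p`. Then `n = A p + B` with `A = α k + β f(k)` and `B = β c f(k)`, where
`A` is at most `x^(2/3 - ρ)` (`x^(7/10 - ρ)`), up to a power of the logarithm (`N733/AQ`, starting files). The theorems on
prime pairs with the differences in the residue classes of every modulus (`R460/GQ`, `R460/GP`, starting files), made uniform
in the scale (`Run7/h430/OD`), are applied to the class of `B` modulo `A`, for every `k`.
-/

set_option autoImplicit false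

namespace Pool.Agent.Results.MP_70e905_nt.AliquotDifferences

open Finset Filter Topology
open Pool.Agent.H560R3.GB (C₂ sing)

/-- A positive multiplicative function with `f m ≤ m (1 + log m)^C` and `f p = p + c` for all large primes `p`. -/
structure Moderate (f : ℕ → ℕ) (c : ℤ) : Prop where
  mul : ∀ m n : ℕ, Nat.Coprime m n → f (m * n) = f m * f n
  pos : ∀ m : ℕ, 1 ≤ m → 1 ≤ f m
  growth : ∃ C : ℕ, ∀ m : ℕ, 1 ≤ m → (f m : ℝ) ≤ m * (1 + Real.log m) ^ C
  prime : ∃ P : ℕ, ∀ p : ℕ, P ≤ p → p.Prime → (f p : ℤ) = p + c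

/-- `m` has a prime factor `p ≥ m ^ τ`. -/
def LargePrime (τ : ℝ) (m : ℕ) : Prop := ∃ p : ℕ, p.Prime ∧ p ∣ m ∧ (m : ℝ) ^ τ ≤ p

open Classical in
/-- The proportion of the positive integers `m ≤ N` without the property `P` tends to `0`. -/
def AlmostAll (P : ℕ → Prop) : Prop :=
  Tendsto (fun N : ℕ => (((Icc 1 N).filter (fun m => ¬ P m)).card : ℝ) / N) atTop (𝓝 0)

/-- The sum of the proper divisors. -/
def aliquot (m : ℕ) : ℕ := ∑ d ∈ m.properDivisors, d

/-- The number `n` is the difference of two primes. -/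
def Difference (n : ℕ) : Prop := ∃ p q : ℕ, p.Prime ∧ q.Prime ∧ q = p + n

open Classical in
/-- The number of the primes `p ≤ y`, `p ≡ a (mod q)`, for which `p + d` is a prime and `p + d ≤ y`. -/
noncomputable def pairs (d : ℕ) (y : ℝ) (a q : ℕ) : ℕ :=
  ((range (⌊y⌋₊ + 1)).filter (fun p => p.Prime ∧ (p + d).Prime ∧ (p : ℝ) + d ≤ y ∧ p ≡ a [MOD q])).card

/-- The number predicted by Hardy and Littlewood: `2 C₂ ∏_{p ∣ d, p > 2} (p - 1) / (p - 2) ∫_2^y dt / (log t)^2`, divided by
the number of the classes `α` modulo `q` with `(α, q) = (α + d, q) = 1`. -/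
noncomputable def prediction (d : ℕ) (y : ℝ) (q : ℕ) : ℝ :=
  2 / (((range q).filter (fun α => Nat.Coprime α q ∧ Nat.Coprime (α + d) q)).card : ℝ) *
    (∏ p ∈ d.primeFactors.filter (fun p => 2 < p), ((p : ℝ) - 1) / ((p : ℝ) - 2)) *
    C₂ * ∫ t in (2 : ℝ)..y, 1 / Real.log t ^ 2

/-- For all `C ≤ K` and ALL real `x` with `d (log d)^(C + 8) ≤ x ≤ d (log d)^K`: the formula holds with an error of at most
`x / (log x)^C` for ALL `1 ≤ q ≤ (log x)^K`, ALL `a` with `(a, q) = (a + d, q) = 1` and ALL real `2 ≤ y ≤ x`. -/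
def Formula (K d : ℕ) : Prop :=
  ∀ C : ℕ, C ≤ K → ∀ x : ℝ, (d : ℝ) * Real.log d ^ (C + 8) ≤ x → x ≤ d * Real.log d ^ K →
    ∀ q a : ℕ, 1 ≤ q → (q : ℝ) ≤ Real.log x ^ K → Nat.Coprime a q → Nat.Coprime (a + d) q →
      ∀ y : ℝ, 2 ≤ y → y ≤ x → |(pairs d y a q : ℝ) - prediction d y q| ≤ x / Real.log x ^ C

/-- The number of the primes `p` with `u < p ≤ v` such that `p + n` is a prime. -/
noncomputable def window (n : ℕ) (u v : ℝ) : ℕ :=
  Set.ncard {p : ℕ | p.Prime ∧ (p + n).Prime ∧ u < (p : ℝ) ∧ (p : ℝ) ≤ v}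

/-- Every window `(u, v] ⊆ (0, n (log n)^K]` of a length of at least `n / (log n)^K` contains at least `1 / 21` of the
predicted number of primes `p` with `p + n` prime. Here `sing n = 2 C₂ ∏_{p ∣ n, p > 2} (p - 1) / (p - 2)`. -/
def Many (K n : ℕ) : Prop :=
  ∀ u v : ℝ, 0 ≤ u → v ≤ n * Real.log n ^ K → n / Real.log n ^ K ≤ v - u →
    1 / 21 * (sing n * (v - u) / Real.log n ^ 2) ≤ (window n u v : ℝ)

theorem mod_of {f : ℕ → ℕ} {c : ℤ} (hf : Moderate f c) :
    Pool.Agent.Results.MP_967f73_nt.AliquotSums.Moderate f c :=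
  ⟨hf.mul, hf.pos, hf.growth, hf.prime⟩

theorem diff_of {n : ℕ} (h : ∃ p : ℕ, p.Prime ∧ (p + n).Prime) : Difference n := by
  obtain ⟨p, hp, hq⟩ := h
  exact ⟨p, p + n, hp, hq, rfl⟩

theorem asymptotic (f : ℕ → ℕ) (c α β : ℤ) (C K : ℕ) (ρ : ℝ) (hf : Moderate f c) (hc : c ≠ 0) (hα : α ≠ 0)
    (hβ : β ≠ 0) (hρ : 0 < ρ) :
    AlmostAll (fun m => LargePrime (1 / 3 + ρ) m → (m : ℝ) / Real.log m ^ C ≤ ((α * m + β * f m : ℤ) : ℝ) →
      Even (α * m + β * f m) → Difference (α * m + β * f m).toNat ∧ Formula K (α * m + β * f m).toNat) := by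
  have h := Pool.Agent.Results.MP_967f73_nt.AliquotSums.general (2 / 3) (by norm_num) (by norm_num)
    (fun n => Even n → Run7.h430.OD.DG K n) (by
      intro ρ hρ A T
      obtain ⟨X₀, h⟩ := Run7.h430.OD.ebt K ρ hρ A T
      refine ⟨X₀, fun X hX q hq hqX a ha V hV => h X hX q hq hqX a ha V (fun v hv => ?_)⟩
      obtain ⟨h1, h2, h3⟩ := hV v hv
      refine ⟨h1, h2, fun h4 => h3 (fun h5 _ => h4 h5)⟩) f c α β C ρ (mod_of hf) hc hα hβ hρ
  rw [show (1 - 2 / 3 : ℝ) = 1 / 3 by norm_num] at h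
  refine Pool.Agent.Results.MP_967f73_nt.AliquotSums.almostAll_and h h 0 ?_
  intro m _ h1 _ h2 h3 h4
  have h5 : Even (α * m + β * f m).toNat := by
    have e0 : 0 ≤ α * m + β * f m := by
      have e1 : (0 : ℝ) ≤ ((α * m + β * f m : ℤ) : ℝ) := by
        refine le_trans ?_ h3
        have : 0 ≤ Real.log (m : ℝ) := Real.log_natCast_nonneg m
        positivity
      exact_mod_cast e1
    have e : (((α * m + β * f m).toNat : ℕ) : ℤ) = α * m + β * f m := Int.toNat_of_nonneg e0
    have e2 : Even (((α * m + β * f m).toNat : ℕ) : ℤ) := by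
      rw [e]
      exact h4
    exact_mod_cast e2
  obtain ⟨h6, h7⟩ := h1 h2 h3 h4 h5
  exact ⟨diff_of h6, fun C hC x hx1 hx2 q a hq hqx ha had y hy2 hyx =>
    h7 h5 h5 C hC x hx1 hx2 q a hq hqx ha had y hy2 hyx⟩

theorem lower (f : ℕ → ℕ) (c α β : ℤ) (C K : ℕ) (ρ : ℝ) (hf : Moderate f c) (hc : c ≠ 0) (hα : α ≠ 0)
    (hβ : β ≠ 0) (hρ : 0 < ρ) :
    AlmostAll (fun m => LargePrime (3 / 10 + ρ) m → (m : ℝ) / Real.log m ^ C ≤ ((α * m + β * f m : ℤ) : ℝ) →
      Even (α * m + β * f m) → Difference (α * m + β * f m).toNat ∧ Many K (α * m + β * f m).toNat) := by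
  have h := Pool.Agent.Results.MP_967f73_nt.AliquotSums.general (7 / 10) (by norm_num) (by norm_num)
    (fun n => Run7.h430.OD.DW K n) (Run7.h430.OD.ebt_low K) f c α β C ρ (mod_of hf) hc hα hβ hρ
  rw [show (1 - 7 / 10 : ℝ) = 3 / 10 by norm_num] at h
  refine Pool.Agent.Results.MP_967f73_nt.AliquotSums.almostAll_and h h 0 ?_
  intro m _ h1 _ h2 h3 h4
  obtain ⟨h6, h7⟩ := h1 h2 h3 h4
  exact ⟨diff_of h6, h7⟩

theorem moderate_totient : Moderate Nat.totient (-1) :=
  ⟨Pool.Agent.N733.AQ.tm_totient.mul, Pool.Agent.N733.AQ.tm_totient.pos, Pool.Agent.N733.AQ.tm_totient.growth,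
    Pool.Agent.N733.AQ.tm_totient.prime⟩

theorem moderate_sigma : Moderate (fun m => ∑ d ∈ m.divisors, d) 1 :=
  ⟨Pool.Agent.N733.AQ.tm_sigma.mul, Pool.Agent.N733.AQ.tm_sigma.pos, Pool.Agent.N733.AQ.tm_sigma.growth,
    Pool.Agent.N733.AQ.tm_sigma.prime⟩

/-- the number `n` is a difference of two primes, and all windows contain many such pairs -/
def Good (K n : ℕ) : Prop := Difference n ∧ Many K n

theorem both (K : ℕ) (ρ : ℝ) (hρ : 0 < ρ) :
    AlmostAll (fun m => Even m → LargePrime (3 / 10 + ρ) m → (Difference (aliquot m) ∧ Many K (aliquot m)) ∧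
      Difference (m - Nat.totient m) ∧ Many K (m - Nat.totient m)) := by
  obtain ⟨m₁, hm₁⟩ := Pool.Agent.Results.MP_967f73_nt.AliquotSums.log_large
  have h1 := lower (fun m => ∑ d ∈ m.divisors, d) 1 (-1) 1 1 K ρ moderate_sigma (by norm_num) (by norm_num)
    (by norm_num) hρ
  have h2 := lower Nat.totient (-1) 1 (-1) 1 K ρ moderate_totient (by norm_num) (by norm_num) (by norm_num) hρ
  have h3 := Pool.Agent.Results.MP_967f73_nt.AliquotSums.squarefree_at (3 / 10 + ρ) (by linarith)
  refine Pool.Agent.Results.MP_967f73_nt.AliquotSums.almostAll_and h1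
    (Pool.Agent.Results.MP_967f73_nt.AliquotSums.almostAll_and h2 h3 0 (R := fun m => (LargePrime (3 / 10 + ρ) m →
      (m : ℝ) / Real.log m ^ 1 ≤ ((1 * m + -1 * Nat.totient m : ℤ) : ℝ) →
      Even (1 * (m : ℤ) + -1 * Nat.totient m) → Good K (1 * (m : ℤ) + -1 * Nat.totient m).toNat) ∧
      ∀ p : ℕ, (m : ℝ) ^ (3 / 10 + ρ) ≤ p → ¬ p ^ 2 ∣ m) (fun m _ a b => ⟨a, b⟩)) (m₁ + 8 ^ 10) ?_
  rintro m hm g1 ⟨g2, g3⟩ he hLP
  obtain ⟨t, ht⟩ := he
  have ht' : m = 2 * t := by omega
  have h8 : (8 : ℕ) ^ 10 ≤ m := by omega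
  have hlm : 2 ≤ Real.log (m : ℝ) := hm₁ m (by omega)
  have hm0 : (0 : ℝ) < m := by
    have : 0 < m := by
      have : (0 : ℕ) < 8 ^ 10 := by norm_num
      omega
    exact_mod_cast this
  have hdiv : (m : ℝ) / Real.log m ^ 1 ≤ m / 2 := by
    rw [pow_one]
    exact div_le_div_of_nonneg_left hm0.le (by norm_num) hlm
  have htr : (m : ℝ) = 2 * t := by exact_mod_cast ht'
  have ht1 : 1 ≤ t := by omega
  -- the totient
  have htot : Nat.totient m ≤ t := by rw [ht']; exact Pool.Agent.N733.AQ.totient_two_mul_le t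
  have htote : Even (Nat.totient m) := Nat.totient_even (by omega)
  have hsig : 3 * t ≤ ∑ d ∈ m.divisors, d := by rw [ht']; exact Pool.Agent.N733.AQ.aliquot_ge t ht1
  have hal : aliquot m + m = ∑ d ∈ m.divisors, d := (Nat.sum_divisors_eq_sum_properDivisors_add_self).symm
  obtain ⟨p, hp, hpm, hpτ⟩ := hLP
  have hp2 : p ≠ 2 := by
    rintro rfl
    have e1 : (8 : ℝ) ≤ (m : ℝ) ^ (3 / 10 + ρ) := by
      have e2 : (1 : ℝ) ≤ m := by exact_mod_cast (by omega : 1 ≤ m)
      calc (8 : ℝ) = ((8 : ℝ) ^ (10 : ℕ)) ^ (1 / 10 : ℝ) := by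
            rw [← Real.rpow_natCast, ← Real.rpow_mul (by norm_num)]
            norm_num
        _ ≤ (m : ℝ) ^ (1 / 10 : ℝ) := by
            apply Real.rpow_le_rpow (by positivity) _ (by norm_num)
            exact_mod_cast h8
        _ ≤ (m : ℝ) ^ (3 / 10 + ρ) := Real.rpow_le_rpow_of_exponent_le e2 (by linarith)
    have e3 : ((2 : ℕ) : ℝ) = 2 := by norm_num
    rw [e3] at hpτ
    linarith
  have hsige : 2 ∣ ∑ d ∈ m.divisors, d := Pool.Agent.N733.AQ.sigma_even hp hp2 hpm (g3 p hpτ)
  constructor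
  · -- the aliquot sum
    have e1 : (-1 * (m : ℤ) + 1 * ((∑ d ∈ m.divisors, d : ℕ) : ℤ)) = (aliquot m : ℤ) := by
      rw [← hal]
      push_cast
      ring
    have e3 : Even (aliquot m) := by
      rw [even_iff_two_dvd]
      have h4 : 2 ∣ aliquot m + m := by rw [hal]; exact hsige
      exact (Nat.dvd_add_left ⟨t, ht'⟩).1 h4
    have := g1 ⟨p, hp, hpm, hpτ⟩ (by
      rw [e1]
      refine hdiv.trans ?_
      push_cast
      have : t ≤ aliquot m := by omega
      have : (t : ℝ) ≤ aliquot m := by exact_mod_cast this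
      linarith) (by
      rw [e1]
      exact_mod_cast e3)
    rw [e1, Int.toNat_natCast] at this
    exact this
  · have e1 : (1 * (m : ℤ) + -1 * (Nat.totient m : ℤ)) = ((m - Nat.totient m : ℕ) : ℤ) := by
      rw [Nat.cast_sub (by omega)]
      ring
    have e3 : Even (m - Nat.totient m) := by
      rw [Nat.even_sub (by omega)]
      exact ⟨fun _ => htote, fun _ => ⟨t, ht⟩⟩
    have := g2 ⟨p, hp, hpm, hpτ⟩ (by
      rw [e1]
      refine hdiv.trans ?_
      push_cast
      have h4 : t ≤ m - Nat.totient m := by omega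
      have h5 : (t : ℝ) ≤ ((m - Nat.totient m : ℕ) : ℝ) := by exact_mod_cast h4
      rw [htr]
      push_cast [Nat.cast_sub (show Nat.totient m ≤ m by omega)] at h5 ⊢
      linarith) (by
      rw [e1]
      exact_mod_cast e3)
    rw [e1, Int.toNat_natCast] at this
    exact this

theorem card_mono' {N : ℕ} {P Q : ℕ → Prop} {dP : DecidablePred P} {dQ : DecidablePred Q} (h : ∀ m, P m → Q m) :
    (@Finset.filter _ P dP (Icc 1 N)).card ≤ (@Finset.filter _ Q dQ (Icc 1 N)).card :=
  card_le_card (fun m hm => Finset.mem_filter.2 ⟨(Finset.mem_filter.1 hm).1, h m (Finset.mem_filter.1 hm).2⟩)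

open Classical in
theorem density (K : ℕ) (δ : ℝ) (hδ : δ < 7 / 10) : ∃ N₀ : ℕ, ∀ N : ℕ, N₀ ≤ N →
    δ * (N / 2) ≤ (((Icc 1 N).filter (fun m => Even m ∧ (Difference (aliquot m) ∧ Many K (aliquot m)) ∧
      Difference (m - Nat.totient m) ∧ Many K (m - Nat.totient m))).card : ℝ) := by
  obtain ⟨P, hP⟩ : ∃ P : ℕ → Prop, P = fun m => (Difference (aliquot m) ∧ Many K (aliquot m)) ∧
      Difference (m - Nat.totient m) ∧ Many K (m - Nat.totient m) := ⟨_, rfl⟩
  obtain ⟨η, hη⟩ : ∃ η : ℝ, η = (7 / 10 - δ) / 4 := ⟨_, rfl⟩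
  have hη0 : 0 < η := by rw [hη]; linarith
  have h1 := (Pool.Agent.Results.MP_967f73_nt.AliquotSums.almostAll_iff _).1 (both K η hη0) (η / 4) (by positivity)
  obtain ⟨N₁, hN₁⟩ := h1
  obtain ⟨M₀, hM₀⟩ := Pool.Agent.N733.AQ.few_smooth (3 / 10 + η) η (by positivity) hη0
  obtain ⟨N₂, hN₂⟩ := exists_nat_gt (2 / η)
  refine ⟨N₁ + 2 * M₀ + N₂ + 2, fun N hN => ?_⟩
  have hb := hN₁ N (by omega)
  obtain ⟨M, hM⟩ : ∃ M, M = N / 2 := ⟨_, rfl⟩
  have hc := hM₀ M (by omega)
  -- the even integers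
  have hsub : (Icc 1 M).image (fun t => 2 * t) ⊆
      ((Icc 1 N).filter (fun m => Even m ∧ P m) ∪
        (Icc 1 N).filter (fun m => ¬ (Even m → LargePrime (3 / 10 + η) m → P m))) ∪
        ((Icc 1 M).filter (fun m : ℕ => ∀ p : ℕ, p.Prime → p ∣ m → (p : ℝ) ≤ ((2 * M : ℕ) : ℝ) ^ (3 / 10 + η))).image
          (fun t => 2 * t) := by
    intro m hm
    rw [mem_image] at hm
    obtain ⟨t, ht, rfl⟩ := hm
    rw [mem_Icc] at ht
    have hmem : 2 * t ∈ Icc 1 N := by rw [mem_Icc]; omega
    rw [mem_union, mem_union, mem_filter, mem_filter, mem_image]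
    by_cases h2 : P (2 * t)
    · left; left
      exact ⟨hmem, even_two_mul t, h2⟩
    · by_cases h3 : LargePrime (3 / 10 + η) (2 * t)
      · left; right
        exact ⟨hmem, fun h => h2 (h (even_two_mul t) h3)⟩
      · right
        refine ⟨t, ?_, rfl⟩
        rw [mem_filter, mem_Icc]
        refine ⟨ht, fun p hp hpt => ?_⟩
        by_contra h4
        push Not at h4
        apply h3
        refine ⟨p, hp, Dvd.dvd.mul_left hpt 2, ?_⟩
        refine le_trans ?_ h4.le
        apply Real.rpow_le_rpow (by positivity) _ (by positivity)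
        exact_mod_cast (by omega : 2 * t ≤ 2 * M)
  have hcard : ((Icc 1 M).image (fun t => 2 * t)).card = M := by
    rw [card_image_of_injective _ (fun a b h => by simpa using h), Nat.card_Icc, Nat.add_sub_cancel]
  have h2 := card_le_card hsub
  rw [hcard] at h2
  have h3 : (M : ℝ) ≤ ((((Icc 1 N).filter (fun m => Even m ∧ P m)).card : ℝ) +
      (((Icc 1 N).filter (fun m => ¬ (Even m → LargePrime (3 / 10 + η) m → P m))).card : ℝ)) +
      (((Icc 1 M).filter (fun m : ℕ => ∀ p : ℕ, p.Prime → p ∣ m → (p : ℝ) ≤ ((2 * M : ℕ) : ℝ) ^ (3 / 10 + η))).card : ℝ) := by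
    have h4 := h2.trans ((card_union_le _ _).trans (add_le_add (card_union_le _ _) card_image_le))
    exact_mod_cast h4
  have hMN : (N : ℝ) / 2 - 1 ≤ M := by
    have : N ≤ 2 * M + 1 := by omega
    have : (N : ℝ) ≤ 2 * M + 1 := by exact_mod_cast this
    linarith
  have hMN2 : (M : ℝ) ≤ N / 2 := by
    have : 2 * M ≤ N := by omega
    have : (2 : ℝ) * M ≤ N := by exact_mod_cast this
    linarith
  have hN2 : 2 / η ≤ N := by
    have : (N₂ : ℝ) ≤ N := by exact_mod_cast (by omega : N₂ ≤ N)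
    linarith
  rw [div_le_iff₀ hη0] at hN2
  have e1 : (7 / 10 - 2 * η) * M ≤ (M : ℝ) - (3 / 10 + η + η) * M := by linarith
  have e2 : (7 / 10 - 2 * η) * ((N : ℝ) / 2 - 1) ≤ (7 / 10 - 2 * η) * M ∨ 7 / 10 - 2 * η < 0 := by
    rcases le_or_gt 0 (7 / 10 - 2 * η) with h | h
    · left
      exact mul_le_mul_of_nonneg_left hMN h
    · right
      exact h
  have hb' : (((Icc 1 N).filter (fun m => ¬ (Even m → LargePrime (3 / 10 + η) m → P m))).card : ℝ) ≤ η / 4 * N := by
    refine le_trans (Nat.cast_le.2 (card_mono' (fun m hm => ?_))) hb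
    rw [hP] at hm
    exact hm
  have hc' : (((Icc 1 M).filter (fun m : ℕ => ∀ p : ℕ, p.Prime → p ∣ m →
      (p : ℝ) ≤ ((2 * M : ℕ) : ℝ) ^ (3 / 10 + η))).card : ℝ) ≤ (3 / 10 + η + η) * M :=
    le_trans (Nat.cast_le.2 (card_mono' (fun m hm => hm))) hc
  have hfin : δ * (N / 2) ≤ (((Icc 1 N).filter (fun m => Even m ∧ P m)).card : ℝ) := by
    rcases e2 with e2 | e2
    · have e3 : δ = 7 / 10 - 4 * η := by rw [hη]; ring
      rw [e3]
      linarith
    · have e3 : δ < 0 := by
        have : δ = 7 / 10 - 4 * η := by rw [hη]; ring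
        linarith
      have e4 : δ * ((N : ℝ) / 2) ≤ 0 := mul_nonpos_of_nonpos_of_nonneg e3.le (by positivity)
      exact e4.trans (Nat.cast_nonneg _)
  refine hfin.trans (Nat.cast_le.2 (card_mono' (fun m hm => ?_)))
  rw [hP] at hm
  exact hm

open Classical in
/-- **Aliquot sums, cototients and similar numbers are differences of two primes.** Let `f` be a positive multiplicative
function of moderate growth with `f p = p + c`, `c ≠ 0`, for all large primes `p`, let `α`, `β` be nonzero integers, `C`, `K`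
natural numbers and `ρ > 0`. (1) For almost all `m` with a prime factor `≥ m^(1/3 + ρ)` and `n = α m + β f(m) ≥ m / (log m)^C`
the integer `n`, if it is even, is a difference of two primes and satisfies `Formula K n`; (2) with a prime factor
`≥ m^(3/10 + ρ)` it is a difference of two primes and satisfies `Many K n`. (3) Euler's function and the sum of the divisors
are examples. (4) For almost all even `m` with a prime factor `≥ m^(3/10 + ρ)` the sum `s(m)` of the proper divisors
and the cototient `m - φ(m)` are differences of two primes and satisfy `Many K`; (5) this is so for a proportion of at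
least `7/10` of the even integers `m`. -/
theorem result :
    (∀ (f : ℕ → ℕ) (c α β : ℤ) (C K : ℕ) (ρ : ℝ), Moderate f c → c ≠ 0 → α ≠ 0 → β ≠ 0 → 0 < ρ →
      AlmostAll (fun m => LargePrime (1 / 3 + ρ) m → (m : ℝ) / Real.log m ^ C ≤ ((α * m + β * f m : ℤ) : ℝ) →
        Even (α * m + β * f m) → Difference (α * m + β * f m).toNat ∧ Formula K (α * m + β * f m).toNat)) ∧
    (∀ (f : ℕ → ℕ) (c α β : ℤ) (C K : ℕ) (ρ : ℝ), Moderate f c → c ≠ 0 → α ≠ 0 → β ≠ 0 → 0 < ρ →
      AlmostAll (fun m => LargePrime (3 / 10 + ρ) m → (m : ℝ) / Real.log m ^ C ≤ ((α * m + β * f m : ℤ) : ℝ) →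
        Even (α * m + β * f m) → Difference (α * m + β * f m).toNat ∧ Many K (α * m + β * f m).toNat)) ∧
    (Moderate Nat.totient (-1) ∧ Moderate (fun m => ∑ d ∈ m.divisors, d) 1) ∧
    (∀ (K : ℕ) (ρ : ℝ), 0 < ρ → AlmostAll (fun m => Even m → LargePrime (3 / 10 + ρ) m →
      (Difference (aliquot m) ∧ Many K (aliquot m)) ∧ Difference (m - Nat.totient m) ∧ Many K (m - Nat.totient m))) ∧
    ∀ (K : ℕ) (δ : ℝ), δ < 7 / 10 → ∃ N₀ : ℕ, ∀ N : ℕ, N₀ ≤ N → δ * (N / 2) ≤
      (((Icc 1 N).filter (fun m => Even m ∧ (Difference (aliquot m) ∧ Many K (aliquot m)) ∧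
        Difference (m - Nat.totient m) ∧ Many K (m - Nat.totient m))).card : ℝ) :=
  ⟨asymptotic, lower, ⟨moderate_totient, moderate_sigma⟩, both, density⟩

end Pool.Agent.Results.MP_70e905_nt.AliquotDifferences
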