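import Pool.Agent.Run7.h430.OD.D
import Pool.Agent.W93.GB1

/-!
# Prime pairs whose differences are the multiples of the integers on almost all orbits of Euler's function

Let `φ_k` be the `k`-th iterate of Euler's function and `f` a positive multiplicative function of at most polynomial growth
with `f p = p + c` for all large primes `p` (the identity, Euler's function, the sum of the divisors). There is a function
`κ(m)` tending to infinity such that for almost all `m`, with `K = κ(m)`, ALL the even multiples `d = t n`,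
`1 ≤ t ≤ (log n)^K`, of ALL the integers `n = α f(φ_k m) + h` with `k, α, |h| ≤ K`, `α ≥ 1`, `h ≠ 0`, are differences of two
primes, and the formula of Hardy and Littlewood for the number of the primes `p ≡ a (mod q)`, `p + d ≤ y`, for which `p + d`
is prime holds for ALL `q ≤ (log x)^K`, ALL admissible classes `a` and ALL `y ≤ x` with the error `x / (log x)^C`, for ALL
scales `x` between `d (log d)^(C + 8)` and `d (log d)^K`.

The starting result `TotientDifferences` treats `f(m) + a` (no iterates, no multiples, no progressions). The iterates of `φ`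
are not multiplicative, their values form a very thin set and are taken with large multiplicities.

Proof. `N826/IT` (starting files): a property which is rarely violated in the classes `h ≠ 0` modulo every `q ≤ X^(7/12)`
holds along almost all orbits. `R460/GQ` (starting files): prime pairs in progressions for almost all differences in every
class of every modulus `m ≤ x^(2/3 - ρ)`, at one scale `x`. `Run7/h430/OD`: all scales between `d (log d)^(C + 8)` and
`d (log d)^K` and all multiples at once, and the existence of a pair.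
-/

set_option autoImplicit false

namespace Pool.Agent.Results.MP_70e905_nt.IteratedTotientDifferences

open Finset Filter Topology
open Pool.Agent.H560R3.GB (C₂)

/-- A positive multiplicative function of at most polynomial growth with `f p = p + c` for all large primes `p`. -/
structure Shifted (f : ℕ → ℕ) (c : ℤ) : Prop where
  mul : ∀ m n : ℕ, Nat.Coprime m n → f (m * n) = f m * f n
  pos : ∀ m : ℕ, 1 ≤ m → 1 ≤ f m
  growth : ∃ C D : ℕ, ∀ m : ℕ, 1 ≤ m → f m ≤ C * m ^ D
  prime : ∃ P : ℕ, ∀ p : ℕ, P ≤ p → p.Prime → (f p : ℤ) = p + c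

open Classical in
/-- The proportion of the positive integers `m ≤ N` without the property `P` tends to `0`. -/
def AlmostAll (P : ℕ → Prop) : Prop :=
  Tendsto (fun N : ℕ => (((Icc 1 N).filter (fun m => ¬ P m)).card : ℝ) / N) atTop (𝓝 0)

open Classical in
/-- The number of the primes `p ≤ y`, `p ≡ a (mod q)`, for which `p + d` is a prime and `p + d ≤ y`. -/
noncomputable def pairs (d : ℕ) (y : ℝ) (a q : ℕ) : ℕ :=
  ((range (⌊y⌋₊ + 1)).filter (fun p => p.Prime ∧ (p + d).Prime ∧ (p : ℝ) + d ≤ y ∧ p ≡ a [MOD q])).card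

/-- The number predicted by Hardy and Littlewood: `2 C₂ ∏_{p ∣ d, p > 2} (p - 1) / (p - 2) ∫_2^y dt / (log t)^2`, divided by
the number of the classes `α` modulo `q` with `(α, q) = (α + d, q) = 1`. -/
noncomputable def prediction (d : ℕ) (y : ℝ) (q : ℕ) : ℝ :=
  2 / (((range q).filter (fun α => Nat.Coprime α q ∧ Nat.Coprime (α + d) q)).card : ℝ) *
    (∏ p ∈ d.primeFactors.filter (fun p => 2 < p), ((p : ℝ) - 1) / ((p : ℝ) - 2)) *
    C₂ * ∫ t in (2 : ℝ)..y, 1 / Real.log t ^ 2

/-- For all `C ≤ K` and ALL real `x` with `d (log d)^(C + 8) ≤ x ≤ d (log d)^K`: the formula holds with an error of at most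
`x / (log x)^C` for ALL `1 ≤ q ≤ (log x)^K`, ALL `a` with `(a, q) = (a + d, q) = 1` and ALL real `2 ≤ y ≤ x`. -/
def Formula (K d : ℕ) : Prop :=
  ∀ C : ℕ, C ≤ K → ∀ x : ℝ, (d : ℝ) * Real.log d ^ (C + 8) ≤ x → x ≤ d * Real.log d ^ K →
    ∀ q a : ℕ, 1 ≤ q → (q : ℝ) ≤ Real.log x ^ K → Nat.Coprime a q → Nat.Coprime (a + d) q →
      ∀ y : ℝ, 2 ≤ y → y ≤ x → |(pairs d y a q : ℝ) - prediction d y q| ≤ x / Real.log x ^ C

theorem formula_of {K K' d : ℕ} (hK : K ≤ K') (hd : 3 ≤ d) (hev : Even d) (h : Run7.h430.OD.PP K' d) : Formula K d :=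
  fun C hC x hx1 hx2 q a hq hqx ha had y hy2 hyx =>
    Run7.h430.OD.PP_mono hK hd h hev C hC x hx1 hx2 q a hq hqx ha had y hy2 hyx

theorem orb_of {f : ℕ → ℕ} {c : ℤ} (hf : Shifted f c) : Pool.Agent.N826.IT.Orb.Shifted f c :=
  ⟨hf.mul, hf.pos, hf.growth, hf.prime⟩

theorem of_orb {f : ℕ → ℕ} {c : ℤ} (hf : Pool.Agent.N826.IT.Orb.Shifted f c) : Shifted f c :=
  ⟨hf.mul, hf.pos, hf.growth, hf.prime⟩

/-- **Differences of primes along the orbits of Euler's function.** (1) Let `f` be a positive multiplicative function of at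
most polynomial growth with `f p = p + c` for all large primes `p`. There is a function `κ` tending to infinity such that
for almost all `m`, with `K = κ m`, ALL integers `n = α f(φ_k m) + h` with `k ≤ K`, `1 ≤ α ≤ K`, `0 < |h| ≤ K` are positive,
and ALL their even multiples `d = t n` with `1 ≤ t ≤ (log n)^K` are differences of two primes and satisfy `Formula K d`.
(2) The identity, Euler's function and the sum of the divisors are examples of such functions `f`. -/
theorem result :
    (∀ (f : ℕ → ℕ) (c : ℤ), Shifted f c → ∃ κ : ℕ → ℕ, Tendsto κ atTop atTop ∧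
      AlmostAll (fun m => ∀ k α : ℕ, ∀ h : ℤ, k ≤ κ m → 1 ≤ α → α ≤ κ m → |h| ≤ κ m → h ≠ 0 →
        0 < (α : ℤ) * f (Nat.totient^[k] m) + h ∧
        ∀ n : ℕ, (n : ℤ) = (α : ℤ) * f (Nat.totient^[k] m) + h → ∀ t : ℕ, 1 ≤ t → (t : ℝ) ≤ Real.log n ^ κ m →
          Even (t * n) → (∃ p : ℕ, p.Prime ∧ (p + t * n).Prime) ∧ Formula (κ m) (t * n))) ∧
    (Shifted (fun m => m) 0 ∧ Shifted Nat.totient (-1) ∧ Shifted (fun m => ∑ d ∈ m.divisors, d) 1) := by
  refine ⟨fun f c hf => ?_, ⟨of_orb Pool.Agent.N826.IT.Orb.shifted_id, of_orb Pool.Agent.N826.IT.Orb.shifted_totient,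
    of_orb Pool.Agent.N826.IT.Orb.shifted_sigma⟩⟩
  obtain ⟨κ, hκ, h⟩ := Pool.Agent.N826.IT.Orb.orbits _ Run7.h430.OD.rare_PM (orb_of hf)
  refine ⟨κ, hκ, Pool.Agent.N826.IT.Orb.almostAll_mono h (fun m hm k α h hk hα1 hα hh hne => ?_)⟩
  obtain ⟨h1, h2⟩ := hm k α h hk hα1 hα hh hne
  refine ⟨by omega, fun n hn t ht1 ht2 hev => ?_⟩
  rw [← hn, Int.toNat_natCast] at h2
  obtain ⟨h3, h4⟩ := h2
  have hn21 : n ≤ t * n := Nat.le_mul_of_pos_left n ht1
  have h5 := h4 t ht1 (ht2.trans (pow_le_pow_right₀ (Run7.h430.OD.log_ge_one (by omega)) (by omega)))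
  refine ⟨?_, formula_of (by omega) (by omega) hev h5⟩
  exact Run7.h430.OD.pair_of (by omega) (Pool.Agent.W93.GB.one_le_sing (t * n)) hev
    (Run7.h430.OD.PP_mono (by omega) (by omega) h5)

end Pool.Agent.Results.MP_70e905_nt.IteratedTotientDifferences
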