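import Pool.Agent.Run7.h931.GB.Nst

/-!
# All even numbers as differences of a prime and a perturbed prime

The question is whether every even natural number is the difference `p - q` of two primes. Here `q` runs through perturbed primes
`t 0, t 1, ..., t (m - 1)`: `t j` is congruent to the `j`-th prime modulo `M` (the product of the primes `≤ w`, or any multiple with
the same prime divisors), and otherwise runs through a window of its own in `[N / 2, N)`; more generally the residues of the `t j`
are prescribed arbitrarily. For almost all choices the theorem determines for ALL `k` at once how many of the even numbers `n ≤ N`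
are not of the form `p - t j` with `p` prime and `j < k`: `N^(1 - level + o(1))`, where `level = size / log^2 N`, and none for
`level > 1`. So ALL even numbers `n ≤ N`, without exceptions, are differences of a prime and one of the first
`(1 + o(1)) log^2 N / (2 C_2)` perturbed primes, and this number is best possible. This is the analogue of the prediction for the
least prime `q` such that `n + q` is a prime, for the worst even number `n ≤ N`.

Method: second moments of the number of the `n` in the worst residue class modulo `M` which are not represented; prime pairs with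
the correct constant in residue classes and windows for almost all differences; first moments for the upper bound; a grid of values
of `k` and monotonicity.
-/

set_option autoImplicit false

namespace Pool.Agent.Results.MP_70e905_nt.PerturbedPrimeDifferences

open Finset

/-- The vectors of subtrahends: `t j` is in the window `(f j, f j + q]` and `t j ≡ d j` modulo `M`, `j < m`. -/
def vectors (m M q : ℕ) (d f : ℕ → ℕ) : Finset (Fin m → ℕ) :=
  Fintype.piFinset fun j : Fin m => (Ioc (f j) (f j + q)).filter fun v => v ≡ d j [MOD M]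

open Classical in
/-- The number of the even numbers `1 ≤ n ≤ N` which are not of the form `p - t j` with a prime `p` and `j < k`. -/
noncomputable def missed {m : ℕ} (N : ℕ) (t : Fin m → ℕ) (k : ℕ) : ℕ :=
  ((Icc 1 N).filter fun n => Even n ∧ ∀ j : Fin m, j.val < k → ¬ (n + t j).Prime).card

/-- The effective number of the first `k` subtrahends: `M / φ(M)` times the least number, over all even `n`, of the `j < k` for which
`n + d j` is coprime to `M`. -/
noncomputable def size (M : ℕ) (d : ℕ → ℕ) (k : ℕ) : ℝ :=
  (M : ℝ) / Nat.totient M * (sInf (Set.range fun i : ℕ => ((range k).filter fun j => (2 * i + d j).Coprime M).card) : ℕ)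

/-- `size / log^2 N`. -/
noncomputable def level (N M : ℕ) (d : ℕ → ℕ) (k : ℕ) : ℝ := size M d k / Real.log N ^ 2

/-- The product `2 ∏ (1 - 1 / (p - 1)^2)` over the primes `2 < p ≤ w`; it tends to `2 C_2` for `w → ∞`. -/
noncomputable def twice (w : ℕ) : ℝ := 2 * ∏ p ∈ (Icc 3 w).filter Nat.Prime, (1 - 1 / ((p : ℝ) - 1) ^ 2)

/-- What holds for almost all vectors of subtrahends: the number of the even numbers which are missed, for all `k` at once. -/
def Law {m : ℕ} (N M : ℕ) (d : ℕ → ℕ) (ε : ℝ) (t : Fin m → ℕ) : Prop := ∀ k ≤ m,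
  (missed N t k : ℝ) ≤ (N : ℝ) ^ (1 - level N M d k + ε) ∧
  (level N M d k ≤ 1 - ε → (N : ℝ) ^ (1 - level N M d k - ε) ≤ (missed N t k : ℝ))

lemma neg_cop (M x y : ℕ) (h : (x : ZMod M) = -(y : ZMod M)) : x.Coprime M ↔ y.Coprime M := by
  rw [← ZMod.isUnit_iff_coprime, ← ZMod.isUnit_iff_coprime, h, IsUnit.neg_iff]

lemma pos_cop (M x y : ℕ) (h : (x : ZMod M) = (y : ZMod M)) : x.Coprime M ↔ y.Coprime M := by
  rw [← ZMod.isUnit_iff_coprime, ← ZMod.isUnit_iff_coprime, h]

lemma pred_cast (M : ℕ) (hM : 1 ≤ M) : ((M - 1 : ℕ) : ZMod M) = -1 := by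
  rw [Nat.cast_sub hM, ZMod.natCast_self, Nat.cast_one, zero_sub]

open Classical in
/-- Let `0 < ε ≤ 1`. There is `w₀` such that the following holds for all `a`, all `w ≥ w₀` and every modulus `M` whose prime divisors
are exactly the primes up to `w`. For all large `N`, all `q ≥ N / log^a N`, all `m ≥ 1`, all residues `d j` and all windows
`(f j, f j + q]` in `[N / 2 - 1, N)`, `j < m`:

**(A)** For all but a proportion of at most `ε` of the vectors `t` of numbers `t j ≡ d j` modulo `M` in the windows: for ALL
`k ≤ m`, the number of the even numbers `1 ≤ n ≤ N` which are not of the form `p - t j` with a prime `p` and `j < k` is at most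
`N^(1 - L + ε)`, `L = size / log^2 N`, and at least `N^(1 - L - ε)` if `L ≤ 1 - ε`. In particular, for `L > 1 + ε` ALL even numbers
`n ≤ N` are of this form with `j < k`.

**(B)** If the residues are the first `m` primes (`d 0 = 2`, `d 1 = 3`, ...), then `|size - twice w * k| ≤ ε k` for all large
`k ≤ m`. -/
theorem result (ε : ℝ) (hε : 0 < ε) (hε1 : ε ≤ 1) : ∃ w₀ : ℕ, ∀ a w : ℕ, w₀ ≤ w → ∀ M : ℕ, 1 ≤ M →
    (∀ p : ℕ, p.Prime → (p ∣ M ↔ p ≤ w)) → ∃ N₀ : ℕ, ∀ N : ℕ, N₀ ≤ N → ∀ q : ℕ, (N : ℝ) ≤ q * Real.log N ^ a →
    ∀ (m : ℕ) (d f : ℕ → ℕ), 1 ≤ m → (∀ j < m, N ≤ 2 * (f j + 1) ∧ f j + q < N) →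
      (((vectors m M q d f).filter fun t => ¬ Law N M d ε t).card : ℝ) ≤ ε * (vectors m M q d f).card ∧
      ((∀ j < m, d j = Nat.nth Nat.Prime j) → ∀ k ≤ m, N₀ ≤ k → |size M d k - twice w * k| ≤ ε * k) := by
  obtain ⟨w₀, hw₀⟩ := Pool.Agent.Run7.h931.GB.nest ε hε hε1
  refine ⟨max w₀ 2, fun a w hw M hM1 hM => ?_⟩
  have hw2 : 2 ≤ w := (le_max_right _ _).trans hw
  obtain ⟨m₀, hm₀⟩ := Filter.eventually_atTop.1 (Pool.Agent.Run7.h931.GB.size_primes w M hw2 hM1 hM ε hε)
  have hφ : (0 : ℝ) < Nat.totient M := by exact_mod_cast Nat.totient_pos.2 hM1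
  have hP : (M : ℝ) / Nat.totient M = Pool.Agent.Run7.h931.RS.Pw w := by
    rw [← Pool.Agent.Run7.h931.RL.tot_P w M hM1 hM]
    field_simp
  obtain ⟨N₀, hN₀⟩ := Filter.eventually_atTop.1 ((hw₀ a w ((le_max_left _ _).trans hw) M hM1 hM).and
    ((Filter.eventually_ge_atTop 3).and (Pool.Agent.Run7.h931.RS.ev_log 1)))
  refine ⟨max N₀ m₀, fun N hN q hq m d f hm1 hf => ?_⟩
  obtain ⟨g1, g2, g3⟩ := hN₀ N ((le_max_left _ _).trans hN)
  have hL0 : 0 < Real.log (N : ℝ) := by linarith
  have hN0 : (0 : ℝ) < N := by exact_mod_cast (by omega : 0 < N)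
  constructor
  · obtain ⟨c, hc⟩ : ∃ c : ℕ → ℕ, c = fun j => N + (M - 1) * d j := ⟨_, rfl⟩
    obtain ⟨b, hb⟩ : ∃ b : ℕ → ℕ, b = fun j => N - f j - q - 1 := ⟨_, rfl⟩
    have hqN : q ≤ N := by
      have := hf 0 (by omega)
      omega
    have hbq : ∀ j < m, b j + q + f j + 1 = N := by
      intro j hj
      have := hf j hj
      rw [hb]
      simp only
      omega
    have k1 := g1 q hq hqN m c b (fun j hj => by
      have h1 := hbq j hj
      have h2 := hf j hj
      omega)
    -- residues
    have hres : ∀ j : ℕ, ∀ u v : ℕ, u + v = N → (u ≡ d j [MOD M] ↔ v ≡ c j [MOD M]) := by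
      intro j u v huv
      rw [← ZMod.natCast_eq_natCast_iff, ← ZMod.natCast_eq_natCast_iff, hc]
      simp only
      rw [← huv]
      push_cast
      rw [pred_cast M hM1]
      constructor
      · intro h
        rw [h]
        ring
      · intro h
        have h2 : (u : ZMod M) = d j + (u + v + -1 * d j - v) := by ring
        rw [← h] at h2
        rw [h2]
        ring
    -- the reflection
    have hin : ∀ t ∈ vectors m M q d f, (∀ j, t j ≤ N) ∧ (fun j => N - t j) ∈
        Pool.Agent.Run7.h931.GB.Om M q (fun j : Fin m => c j) (fun j : Fin m => b j) := by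
      intro t ht
      unfold vectors at ht
      rw [Fintype.mem_piFinset] at ht
      have h1 : ∀ j, t j ≤ N := by
        intro j
        have h2 := ht j
        rw [mem_filter, mem_Ioc] at h2
        have h3 := hbq j j.2
        omega
      refine ⟨h1, ?_⟩
      unfold Pool.Agent.Run7.h931.GB.Om
      rw [Fintype.mem_piFinset]
      intro j
      have h2 := ht j
      show N - t j ∈ (Ioc (b j) (b j + q)).filter fun v => v ≡ c j [MOD M]
      rw [mem_filter, mem_Ioc] at h2 ⊢
      have h3 := hbq j j.2
      refine ⟨⟨by omega, by omega⟩, ?_⟩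
      exact (hres j (t j) (N - t j) (by have := h1 j; omega)).1 h2.2
    have hout : ∀ s ∈ Pool.Agent.Run7.h931.GB.Om M q (fun j : Fin m => c j) (fun j : Fin m => b j), (∀ j, s j ≤ N) ∧
        (fun j => N - s j) ∈ vectors m M q d f := by
      intro s hs
      unfold Pool.Agent.Run7.h931.GB.Om at hs
      rw [Fintype.mem_piFinset] at hs
      have h1 : ∀ j, s j ≤ N := by
        intro j
        have h2 : s j ∈ (Ioc (b j) (b j + q)).filter fun v => v ≡ c j [MOD M] := hs j
        rw [mem_filter, mem_Ioc] at h2
        have h3 := hbq j j.2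
        omega
      refine ⟨h1, ?_⟩
      unfold vectors
      rw [Fintype.mem_piFinset]
      intro j
      have h2 : s j ∈ (Ioc (b j) (b j + q)).filter fun v => v ≡ c j [MOD M] := hs j
      rw [mem_filter, mem_Ioc] at h2 ⊢
      have h3 := hbq j j.2
      refine ⟨⟨by omega, by omega⟩, ?_⟩
      exact (hres j (N - s j) (s j) (by have := h1 j; omega)).2 h2.2
    have hcard : Pool.Agent.Run7.h931.GB.Qt M q (fun j : Fin m => c j) (fun j : Fin m => b j) ≤ ((vectors m M q d f).card : ℝ) := by
      rw [← Pool.Agent.Run7.h931.GB.Om_card]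
      apply Nat.cast_le.2
      apply card_le_card_of_injOn (fun s => fun j => N - s j)
      · intro s hs
        have h1 := (hout s (by exact_mod_cast hs)).2
        exact_mod_cast h1
      · intro s hs s' hs' h
        have h1 := (hout s (by exact_mod_cast hs)).1
        have h2 := (hout s' (by exact_mod_cast hs')).1
        funext j
        have h3 := congrFun h j
        simp only at h3
        have h4 := h1 j
        have h5 := h2 j
        omega
    have hlev : ∀ k, Pool.Agent.Run7.h931.RS.Pw w * Pool.Agent.Run7.h931.GB.rz M c N k / Real.log N ^ 2 = level N M d k := by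
      intro k
      unfold level size Pool.Agent.Run7.h931.GB.rz
      rw [hP]
      have h1 : (fun i : ℕ => Pool.Agent.Run7.h931.GB.lg M (fun j : Fin k => c j) (N + 2 * i)) =
          fun i : ℕ => ((range k).filter fun j => (2 * i + d j).Coprime M).card := by
        funext i
        rw [Pool.Agent.Run7.h931.GB.lg_range M c]
        congr 1
        apply filter_congr
        intro j _
        apply pos_cop
        rw [hc]
        push_cast
        rw [pred_cast M hM1]
        ring
      rw [h1]
    have hmiss : ∀ t ∈ vectors m M q d f, ∀ k, Pool.Agent.Run7.h931.GB.fr N (fun j => N - t j) k = missed N t k := by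
      intro t ht k
      have ht1 := (hin t ht).1
      unfold Pool.Agent.Run7.h931.GB.fr missed
      symm
      apply card_bij (fun n _ => n + N)
      · intro n hn
        rw [mem_filter, mem_Icc] at hn
        rw [mem_filter]
        unfold Pool.Agent.Run7.h931.GB.ed
        rw [mem_filter, mem_Ioc]
        refine ⟨⟨⟨by omega, by omega⟩, ?_⟩, fun j hj => ?_⟩
        · rw [Nat.add_sub_cancel]
          exact hn.2.1
        · have h1 : n + N - (N - t j) = n + t j := by
            have := ht1 j
            omega
          rw [h1]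
          exact hn.2.2 j hj
      · intro n _ n' _ h
        exact Nat.add_right_cancel h
      · intro n hn
        rw [mem_filter] at hn
        unfold Pool.Agent.Run7.h931.GB.ed at hn
        rw [mem_filter, mem_Ioc] at hn
        refine ⟨n - N, ?_, by omega⟩
        rw [mem_filter, mem_Icc]
        refine ⟨⟨by omega, by omega⟩, hn.1.2, fun j hj => ?_⟩
        have h1 : n - N + t j = n - (N - t j) := by
          have := ht1 j
          omega
        rw [h1]
        exact hn.2 j hj
    have hbad : (((vectors m M q d f).filter fun t => ¬ Law N M d ε t).card : ℝ) ≤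
        (((Pool.Agent.Run7.h931.GB.Om M q (fun j : Fin m => c j) (fun j : Fin m => b j)).filter fun s =>
        ¬ ∀ k ≤ m, Pool.Agent.Run7.h931.GB.Ab N ε (Pool.Agent.Run7.h931.RS.Pw w * Pool.Agent.Run7.h931.GB.rz M c N k / Real.log N ^ 2)
          (Pool.Agent.Run7.h931.GB.fr N s k)).card : ℝ) := by
      apply Nat.cast_le.2
      apply card_le_card_of_injOn (fun t => fun j => N - t j)
      · intro t ht
        have ht' : t ∈ (vectors m M q d f).filter fun t => ¬ Law N M d ε t := by exact_mod_cast ht
        rw [mem_filter] at ht'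
        have h1 : (fun j => N - t j) ∈ (Pool.Agent.Run7.h931.GB.Om M q (fun j : Fin m => c j) (fun j : Fin m => b j)).filter fun s =>
            ¬ ∀ k ≤ m, Pool.Agent.Run7.h931.GB.Ab N ε (Pool.Agent.Run7.h931.RS.Pw w * Pool.Agent.Run7.h931.GB.rz M c N k /
              Real.log N ^ 2) (Pool.Agent.Run7.h931.GB.fr N s k) := by
          rw [mem_filter]
          refine ⟨(hin t ht'.1).2, fun h => ht'.2 ?_⟩
          intro k hk
          have h2 := h k hk
          rw [hlev, hmiss t ht'.1] at h2
          exact ⟨h2.2, h2.1⟩
        exact_mod_cast h1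
      · intro t ht t' ht' h
        have ht1 : t ∈ (vectors m M q d f).filter fun t => ¬ Law N M d ε t := by exact_mod_cast ht
        have ht1' : t' ∈ (vectors m M q d f).filter fun t => ¬ Law N M d ε t := by exact_mod_cast ht'
        rw [mem_filter] at ht1 ht1'
        have h1 := (hin t ht1.1).1
        have h2 := (hin t' ht1'.1).1
        funext j
        have h3 := congrFun h j
        simp only at h3
        have h4 := h1 j
        have h5 := h2 j
        omega
    exact (hbad.trans k1).trans (mul_le_mul_of_nonneg_left hcard hε.le)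
  · intro hd k hk hkm
    have h1 := hm₀ k ((le_max_right _ _).trans hkm)
    have h2 : size M d k = Pool.Agent.Run7.h931.RS.Pw w * Pool.Agent.Run7.h931.GB.rs M (fun j : Fin k => Nat.nth Nat.Prime j) := by
      unfold size Pool.Agent.Run7.h931.GB.rs
      rw [hP]
      congr 3
      apply Set.Subset.antisymm
      · rintro x ⟨i, rfl⟩
        refine ⟨(M - 1) * i, ?_⟩
        show Pool.Agent.Run7.h931.GB.lg M (fun j : Fin k => Nat.nth Nat.Prime j) (2 * ((M - 1) * i)) = _
        rw [Pool.Agent.Run7.h931.GB.lg_range M (fun j => Nat.nth Nat.Prime j)]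
        congr 1
        apply filter_congr
        intro j hj
        rw [mem_range] at hj
        rw [hd j (by omega)]
        apply neg_cop
        push_cast
        rw [pred_cast M hM1]
        ring
      · rintro x ⟨i, rfl⟩
        refine ⟨(M - 1) * i, ?_⟩
        show ((range k).filter fun j => (2 * ((M - 1) * i) + d j).Coprime M).card =
          Pool.Agent.Run7.h931.GB.lg M (fun j : Fin k => Nat.nth Nat.Prime j) (2 * i)
        rw [Pool.Agent.Run7.h931.GB.lg_range M (fun j => Nat.nth Nat.Prime j)]
        congr 1
        apply filter_congr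
        intro j hj
        rw [mem_range] at hj
        rw [hd j (by omega)]
        apply neg_cop
        push_cast
        rw [pred_cast M hM1]
        ring
    rw [h2]
    exact h1

end Pool.Agent.Results.MP_70e905_nt.PerturbedPrimeDifferences
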