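import Pool.Agent.Run7.h673.SP.Vec
import Pool.Agent.N625.DY.L
import Pool.Agent.H560R3.GB.Defs

/-!
# Differences of two primes near the values of functions of superpolynomial growth, in all residue classes

For almost all `n`, ALL the even integers `d` slightly above `c₀ + κ ⌊exp (φ (log n))⌋`, for instance `φ y = γ y ^ β` with
`1 < β < 3 / 2`, are differences of two primes, and the number of the pairs of primes `p, p + d` in any residue class, for
ALL the moduli up to a power of `log X`, is the predicted one.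

Definitions used (starting file `Pool.Agent.H560R3.GB.Defs`): `C₂`: the twin prime constant
`∏_{p > 2} (1 - 1 / (p - 1) ^ 2)`. From Mathlib: `ContDiffAt ℝ ⊤`: infinitely differentiable at a point;
`iteratedDeriv m f`: the derivative of order `m`; `⌊y⌋₊`: the integer part of `y`, and `0` for `y < 0`.

Method: the characteristic function of the integer part of `exp (φ (log n))`, for `n` in intervals `(y, x]` of a length of
at most `x / log x`, is small at all frequencies which are not close to integers (Vinogradov's method of bilinear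
exponential sums with the mean value theorem in the form of a starting file; files `Pool.Agent.Run7.h673.SP`). The passage
from such exponential sums to prime pairs in progressions is from the starting files (`Pool.Agent.N625.DY.cls_pairs`).
-/

set_option autoImplicit false

namespace Pool.Agent.Results.MP_70e905_nt.SuperpolynomialDifferences

open Finset Pool.Agent.H560R3.GB

/-- The conditions on `φ` for the growth of `f t = exp (φ (log t))`: for some `δ > 0`, `C` and `L₀` and all `y > L₀` the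
function `φ` is infinitely differentiable at `y`, `φ y > 0`, `(1 + δ) φ y ≤ y φ' y`, `φ y ≤ y ^ (3 / 2 - δ)`, and
`|φ⁽ᵐ⁾ y| ≤ m! φ y (C / y) ^ m` for all `m ≥ 1`. -/
def Rapid (φ : ℝ → ℝ) : Prop :=
  ∃ δ C L₀ : ℝ, 0 < δ ∧ ∀ y > L₀, ContDiffAt ℝ ((⊤ : ℕ∞) : WithTop ℕ∞) φ y ∧ 0 < φ y ∧
    (1 + δ) * φ y ≤ y * deriv φ y ∧ φ y ≤ y ^ (3 / 2 - δ) ∧
    ∀ m : ℕ, 1 ≤ m → |iteratedDeriv m φ y| ≤ m.factorial * φ y * (C / y) ^ m

/-- `(y, x]` is an admissible interval of the scale `N`: `x / log ^ a N ≤ x - y ≤ x / log x`, and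
`exp (φ (log n)) ≤ N ≤ exp (φ (log x)) log ^ a N` for `y < n ≤ x`. -/
def Interval (φ : ℝ → ℝ) (a N x y : ℕ) : Prop :=
  y < x ∧ (x : ℝ) - x / Real.log x ≤ y ∧ (x : ℝ) ≤ Real.log N ^ a * ((x : ℝ) - y) ∧
  (∀ n : ℕ, n ∈ Ioc y x → Real.exp (φ (Real.log n)) ≤ N) ∧ (N : ℝ) ≤ Real.log N ^ a * Real.exp (φ (Real.log x))

/-- The number of primes `p ≤ x` with `p + d` prime and `p ≡ α (mod q)`. -/
def pairs (d x α q : ℕ) : ℕ := ((range (x + 1)).filter (fun p => p.Prime ∧ (p + d).Prime ∧ p ≡ α [MOD q])).card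

/-- The predicted number: `2 C₂ ∏_{p ∣ d, p > 2} (p - 1) / (p - 2) ∫_2^x dt / log ^ 2 t`, divided by the number of the residue
classes `β` modulo `q` for which `β` and `β + d` are prime to `q`. -/
noncomputable def main (d x q : ℕ) : ℝ :=
  2 * C₂ * (∏ p ∈ d.primeFactors.filter (fun p => 2 < p), ((p : ℝ) - 1) / ((p : ℝ) - 2)) *
    (∫ t in (2 : ℝ)..x, 1 / Real.log t ^ 2) /
      (((range q).filter (fun β => Nat.Coprime β q ∧ Nat.Coprime (β + d) q)).card : ℝ)

/-- All the even `d > 0` with `D ≤ d ≤ D + log ^ A₁ X` are differences of two primes `p + d` and `p` with `p ≤ X`; moreover,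
for all `2 ≤ x ≤ X`, all the moduli `1 ≤ q ≤ log ^ A₂ X` and all the residue classes `α` modulo `q` for which `α` and `α + d` are
prime to `q`, the number of the primes `p ≤ x` with `p + d` prime and `p ≡ α (mod q)` is the predicted one up to an error of
at most `X / log ^ C X`. -/
def Holds (A₁ A₂ C X D : ℕ) : Prop :=
  ∀ d : ℕ, D ≤ d → (d : ℝ) ≤ D + Real.log X ^ A₁ → 0 < d → Even d →
    (∃ p : ℕ, p.Prime ∧ (p + d).Prime ∧ p ≤ X) ∧
    ∀ q α x : ℕ, 1 ≤ q → (q : ℝ) ≤ Real.log X ^ A₂ → Nat.Coprime α q → Nat.Coprime (α + d) q → 2 ≤ x → x ≤ X →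
      |(pairs d x α q : ℝ) - main d x q| ≤ X / Real.log X ^ C

lemma large_log (C : ℝ) : ∃ N₀ : ℕ, ∀ N : ℕ, N₀ ≤ N → C ≤ Real.log N :=
  Filter.eventually_atTop.mp
    ((Real.tendsto_log_atTop.comp (tendsto_natCast_atTop_atTop (R := ℝ))).eventually_ge_atTop C)

lemma li_ge (X : ℕ) (hX : 2 ≤ X) : ((X : ℝ) - 2) / Real.log X ^ 2 ≤ Pool.Agent.W93.PP.Li2 X := by
  unfold Pool.Agent.W93.PP.Li2
  have hX2 : (2 : ℝ) ≤ X := by exact_mod_cast hX
  have hanti := Pool.Agent.W93.PP.anti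
  have hint : IntervalIntegrable (fun t : ℝ => 1 / Real.log t ^ 2) MeasureTheory.volume 2 X := by
    apply AntitoneOn.intervalIntegrable
    rw [Set.uIcc_of_le hX2]
    exact hanti.mono (fun t ht => ht.1)
  have h1 : ∫ _t in (2 : ℝ)..X, (1 / Real.log X ^ 2 : ℝ) ≤ ∫ t in (2 : ℝ)..X, 1 / Real.log t ^ 2 := by
    apply intervalIntegral.integral_mono_on hX2 intervalIntegrable_const hint
    intro t ht
    exact hanti ht.1 (by exact hX2) ht.2
  rw [intervalIntegral.integral_const, smul_eq_mul] at h1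
  refine le_trans (le_of_eq ?_) h1
  ring

lemma holds_of (A B C : ℕ) : ∃ X₀ : ℕ, ∀ X : ℕ, X₀ ≤ X → ∀ D : ℕ,
    (D : ℝ) + Real.log X ^ A ≤ X / Real.log X ^ (C + 1) →
    Pool.Agent.W93.PP.GoodD A B (C + 4) X D → Holds A B C X D := by
  obtain ⟨X₀, hX₀⟩ := large_log 40
  refine ⟨X₀ + 8, fun X hX D hDX hgood => ?_⟩
  have hL := hX₀ X (by omega)
  obtain ⟨L, hLd⟩ : ∃ L, L = Real.log (X : ℝ) := ⟨_, rfl⟩
  rw [← hLd] at hL hDX
  have hL0 : 0 < L := by linarith
  have hX0 : (0 : ℝ) < X := by exact_mod_cast (by omega : 0 < X)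
  have hX8 : (8 : ℝ) ≤ X := by exact_mod_cast (by omega : 8 ≤ X)
  intro d hd1 hd2 hd0 hdev
  rw [← hLd] at hd2
  obtain ⟨δ, hδ⟩ := Nat.exists_eq_add_of_le hd1
  have hδL : (δ : ℝ) ≤ L ^ A := by
    rw [hδ] at hd2
    push_cast at hd2
    linarith
  have hmain : ∀ q x : ℕ, main d x q = sing d / Pool.Agent.W93.PP.Cnt q d * Pool.Agent.W93.PP.Li2 x := by
    intro q x
    unfold main sing Pool.Agent.W93.PP.Cnt Pool.Agent.W93.PP.Li2
    ring
  have hdX : (d : ℝ) ≤ X / L ^ (C + 1) := by linarith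
  have hg : ∀ q α : ℕ, 1 ≤ q → (q : ℝ) ≤ L ^ B → Nat.Coprime α q → Nat.Coprime (α + d) q → ∀ x : ℝ, 2 ≤ x → x ≤ X →
      |(Pool.Agent.W93.PP.pc d x α q : ℝ) - sing d / Pool.Agent.W93.PP.Cnt q d * Pool.Agent.W93.PP.Li2 x| ≤ X / L ^ (C + 4) := by
    intro q α hq1 hq2 h1 h2 x hx1 hx2
    have h3 := hgood δ q α (by rw [← hLd]; exact hδL) hq1 (by rw [← hLd]; exact hq2) h1 (by rw [← hδ]; exact h2)
      (by rw [← hδ]; exact hdev.two_dvd) (by rw [← hδ]; omega) x hx1 hx2
    rw [← hδ, ← hLd] at h3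
    exact h3
  have hpc : ∀ x : ℕ, ∀ α q : ℕ, Pool.Agent.W93.PP.pc d (x : ℝ) α q =
      ((range (x + 1)).filter (fun p => p.Prime ∧ (p + d).Prime ∧ (p : ℝ) + d ≤ (x : ℝ) ∧ p ≡ α [MOD q])).card := by
    intro x α q
    unfold Pool.Agent.W93.PP.pc
    rw [Nat.floor_natCast]
  -- the two ways of counting
  have hcount : ∀ x α q : ℕ, (pairs d x α q : ℝ) ≤ (Pool.Agent.W93.PP.pc d (x : ℝ) α q : ℝ) + (d + 1) ∧
      (Pool.Agent.W93.PP.pc d (x : ℝ) α q : ℝ) ≤ pairs d x α q := by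
    intro x α q
    rw [hpc x α q]
    unfold pairs
    constructor
    · have h1 : (range (x + 1)).filter (fun p => p.Prime ∧ (p + d).Prime ∧ p ≡ α [MOD q]) ⊆
          ((range (x + 1)).filter (fun p => p.Prime ∧ (p + d).Prime ∧ (p : ℝ) + d ≤ (x : ℝ) ∧ p ≡ α [MOD q])) ∪
            Icc (x - d) x := by
        intro p hp
        rw [mem_filter, mem_range] at hp
        rw [mem_union, mem_filter, mem_range, mem_Icc]
        by_cases h : p + d ≤ x
        · left
          exact ⟨hp.1, hp.2.1, hp.2.2.1, by exact_mod_cast h, hp.2.2.2⟩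
        · right
          omega
      have h2 := (card_le_card h1).trans (card_union_le _ _)
      have h3 : (Icc (x - d) x).card ≤ d + 1 := by
        rw [Nat.card_Icc]
        omega
      have h4 := h2.trans (Nat.add_le_add_left h3 _)
      exact_mod_cast h4
    · apply Nat.cast_le.2
      apply card_le_card
      intro p hp
      rw [mem_filter] at hp ⊢
      exact ⟨hp.1, hp.2.1, hp.2.2.1, hp.2.2.2.2⟩
  have hLC : X / L ^ (C + 4) ≤ X / L ^ (C + 1) * (1 / 8) := by
    have h1 : (X : ℝ) / L ^ (C + 4) = X / L ^ (C + 1) * (1 / L ^ 3) := by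
      rw [show C + 4 = C + 1 + 3 by ring, pow_add]
      field_simp
    rw [h1]
    apply mul_le_mul_of_nonneg_left _ (by positivity)
    apply one_div_le_one_div_of_le (by norm_num)
    nlinarith [pow_le_pow_left₀ (by norm_num : (0 : ℝ) ≤ 2) (by linarith : (2 : ℝ) ≤ L) 3]
  have hLC' : X / L ^ (C + 1) ≤ X / L ^ C * (1 / 8) := by
    have h1 : (X : ℝ) / L ^ (C + 1) = X / L ^ C * (1 / L) := by
      rw [pow_succ]
      field_simp
    rw [h1]
    apply mul_le_mul_of_nonneg_left _ (by positivity)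
    apply one_div_le_one_div_of_le (by norm_num)
    linarith
  have hXC : 0 < (X : ℝ) / L ^ C := by positivity
  have hd1' : (1 : ℝ) ≤ d := by exact_mod_cast hd0
  refine ⟨?_, fun q α x hq1 hq2 hα1 hα2 hx2 hx => ?_⟩
  · -- existence
    have h1 := hg 1 0 le_rfl (by rw [Nat.cast_one]; exact one_le_pow₀ (by linarith)) (Nat.coprime_one_right 0)
      (Nat.coprime_one_right _) X (by linarith) le_rfl
    have hC1 : (Pool.Agent.W93.PP.Cnt 1 d : ℝ) = 1 := by
      unfold Pool.Agent.W93.PP.Cnt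
      simp
    rw [hC1, div_one] at h1
    have h2 := li_ge X (by omega)
    rw [← hLd] at h2
    have h3 := Pool.Agent.W93.GB.one_le_sing d
    have h4 : 0 ≤ ((X : ℝ) - 2) / L ^ 2 := div_nonneg (by linarith) (by positivity)
    have h5 : ((X : ℝ) - 2) / L ^ 2 ≤ sing d * Pool.Agent.W93.PP.Li2 X := by nlinarith
    have h6 : (X : ℝ) / L ^ (C + 4) ≤ X / L ^ 2 * (1 / 8) := by
      have h7 : (X : ℝ) / L ^ (C + 4) ≤ X / L ^ (0 + 4) := by
        apply div_le_div_of_nonneg_left hX0.le (by positivity)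
        exact pow_le_pow_right₀ (by linarith) (by omega)
      refine h7.trans ?_
      have h8 : (X : ℝ) / L ^ (0 + 4) = X / L ^ 2 * (1 / L ^ 2) := by
        rw [zero_add, show (4 : ℕ) = 2 + 2 by norm_num, pow_add]
        field_simp
      rw [h8]
      apply mul_le_mul_of_nonneg_left _ (by positivity)
      apply one_div_le_one_div_of_le (by norm_num)
      nlinarith
    have h7 : X / L ^ 2 * (1 / 2) ≤ ((X : ℝ) - 2) / L ^ 2 := by
      rw [div_mul_eq_mul_div]
      apply div_le_div_of_nonneg_right _ (by positivity)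
      linarith
    have h8 : 0 < (X : ℝ) / L ^ 2 := by positivity
    have h9 : (0 : ℝ) < Pool.Agent.W93.PP.pc d (X : ℝ) 0 1 := by
      have := (abs_le.1 h1).1
      linarith
    rw [hpc X 0 1] at h9
    have h10 : 0 < ((range (X + 1)).filter (fun p => p.Prime ∧ (p + d).Prime ∧ (p : ℝ) + d ≤ (X : ℝ) ∧ p ≡ 0 [MOD 1])).card := by
      exact_mod_cast h9
    obtain ⟨p, hp⟩ := card_pos.1 h10
    rw [mem_filter, mem_range] at hp
    exact ⟨p, hp.2.1, hp.2.2.1, by omega⟩
  · obtain ⟨c1, c2⟩ := hcount x α q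
    rw [hmain]
    have h1 := hg q α hq1 (by rw [hLd]; exact hq2) hα1 hα2 x (by exact_mod_cast hx2) (by exact_mod_cast hx)
    rw [← hLd]
    rw [abs_le] at h1 ⊢
    constructor
    · linarith [h1.1]
    · linarith [h1.2]

open Pool.Agent.N193.PS (dg lt_dg dg_le log_le_dg dg_le_log dg_large log_pos4 scale_x)
open Pool.Agent.Run7.h673.SP (Rng)

open Classical in
/-- **(1)** Let `φ` satisfy the conditions `Rapid` and let `κ ≠ 0`, `A₁`, `A₂`, `B`, `C`, `U`, `W`, `a` be fixed. Let `N` be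
large, let `(y, x]` be an admissible interval of the scale `N`, let `X ≥ N` with
`N log ^ (C + 11) X ≤ X ≤ N log ^ W X`, and let `|c₀| ≤ B N`. Then all the integers `y < n ≤ x`, with at most
`(x - y) / log ^ U N` exceptions, have the following property: if `D = c₀ + κ ⌊exp (φ (log n))⌋` is positive, then all the
even `d > 0` with `D ≤ d ≤ D + log ^ A₁ X` are differences of two primes `p + d` and `p ≤ X`; moreover, for all
`2 ≤ z ≤ X`, all the moduli `1 ≤ q ≤ log ^ A₂ X` and all the residue classes `α` modulo `q` for which `α` and `α + d` are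
prime to `q`, the number of the primes `p ≤ z` with `p + d` prime and `p ≡ α (mod q)` is the predicted one up to an error of
at most `X / log ^ C X`.

**(2)** For every `φ` with the conditions `Rapid` and all large `M`, the interval `(M - ⌊M / log M⌋, M]` is admissible, for
`a = 2` and `N = ⌈exp (φ (log M))⌉`.

**(3)** The functions `φ y = γ y ^ β` with `γ > 0` and `1 < β < 3 / 2` satisfy the conditions `Rapid`: so (1) holds for the
superpolynomial functions `exp (γ (log n) ^ β)`. -/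
theorem result :
    (∀ φ : ℝ → ℝ, Rapid φ → ∀ (κ : ℤ), κ ≠ 0 → ∀ (A₁ A₂ B C U W a : ℕ),
      ∃ N₀ : ℕ, ∀ N : ℕ, N₀ ≤ N → ∀ x y : ℕ, Interval φ a N x y →
      ∀ X : ℕ, N ≤ X → (N : ℝ) * Real.log X ^ (C + 11) ≤ X → (X : ℝ) ≤ N * Real.log X ^ W →
      ∀ c₀ : ℤ, |c₀| ≤ B * N →
        (((Ioc y x).filter fun n : ℕ => ¬ (0 < c₀ + κ * (⌊Real.exp (φ (Real.log n))⌋₊ : ℕ) →
          Holds A₁ A₂ C X (c₀ + κ * (⌊Real.exp (φ (Real.log n))⌋₊ : ℕ)).toNat)).card : ℝ) ≤
            ((x : ℝ) - y) / Real.log N ^ U) ∧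
    (∀ φ : ℝ → ℝ, Rapid φ → ∃ M₀ : ℕ, ∀ M : ℕ, M₀ ≤ M →
      Interval φ 2 ⌈Real.exp (φ (Real.log M))⌉₊ M (M - ⌊(M : ℝ) / Real.log M⌋₊)) ∧
    (∀ γ β : ℝ, 0 < γ → 1 < β → β < 3 / 2 → Rapid (fun y => γ * y ^ β)) := by
  refine ⟨fun φ hφ κ hκ A₁ A₂ B C U W a => ?_, fun φ hφ => ?_,
    fun γ β h1 h2 h3 => Pool.Agent.Run7.h673.SP.rapid_pow γ β h1 h2 h3⟩
  · have hφ' : Pool.Agent.Run7.h673.SP.Rapid φ := hφ
    obtain ⟨δ, C', L₀, hf⟩ := hφ'.fast
    obtain ⟨k₀, h0⟩ := Pool.Agent.N625.DY.cls_pairs (hf.clsV (a + 1) κ hκ) B (U + 1) A₁ A₂ (C + 4) W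
    obtain ⟨X₁, hX₁⟩ := holds_of A₁ A₂ C
    obtain ⟨N₁, hN₁⟩ := large_log (2 * (B + κ.natAbs + 1))
    obtain ⟨N₂, hN₂⟩ := Filter.eventually_atTop.1 ((tendsto_natCast_atTop_atTop (R := ℝ)).eventually
      (Pool.Agent.N193.PS.log_pow_ev (A₁ + C + 2) 1 1 (by norm_num) (by norm_num)))
    refine ⟨2 ^ k₀ + X₁ + N₁ + N₂ + 8, fun N hN x y hI X hNX hX1 hX2 c₀ hc₀ => ?_⟩
    have hr : Rng φ a N x y := ⟨hI.1, hI.2.1, hI.2.2.1, hI.2.2.2.1, hI.2.2.2.2⟩
    have hk2 : 0 < 2 ^ k₀ := by positivity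
    have hN4 : 4 ≤ N := by omega
    have hNk : N ≤ 2 ^ dg N := (lt_dg N).le
    have hN0 : (0 : ℝ) < N := by exact_mod_cast (by omega : 0 < N)
    have hX0 : (0 : ℝ) < X := by exact_mod_cast (by omega : 0 < X)
    have hlX1 := hN₁ X (by omega)
    have hX3' := hN₂ X (by omega)
    rw [one_mul, Real.rpow_one] at hX3'
    obtain ⟨Q, hQ⟩ : ∃ Q : ℤ → Prop, Q = fun z => (0 < z → ((z.toNat : ℕ) : ℝ) + Real.log X ^ A₁ ≤ X / Real.log X ^ (C + 1) →
      Holds A₁ A₂ C X z.toNat) := ⟨_, rfl⟩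
    -- the size of `X`
    have hlX : 2 ≤ Real.log (X : ℝ) := by
      have h1 : (8 : ℝ) ≤ X := by exact_mod_cast (by omega : 8 ≤ X)
      have h2 : Real.log 8 ≤ Real.log (X : ℝ) := Real.log_le_log (by norm_num) h1
      have h3 : Real.log 8 = 3 * Real.log 2 := by
        rw [show (8 : ℝ) = 2 ^ 3 by norm_num, Real.log_pow]
        norm_num
      linarith [Real.log_two_gt_d9]
    have h2N : ((2 ^ dg N : ℕ) : ℝ) ≤ 2 * N := by exact_mod_cast dg_le N (by omega)
    have h2N' : (2 : ℝ) ^ dg N ≤ 2 * N := by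
      push_cast at h2N
      exact h2N
    have hX3 : (2 : ℝ) ^ dg N * Real.log X ^ (C + 4 + 6) ≤ X := by
      refine le_trans ?_ hX1
      calc (2 : ℝ) ^ dg N * Real.log X ^ (C + 4 + 6) ≤ (2 * N) * Real.log X ^ (C + 4 + 6) :=
            mul_le_mul_of_nonneg_right h2N' (by positivity)
        _ = N * (Real.log X ^ (C + 4 + 6) * 2) := by ring
        _ ≤ N * (Real.log X ^ (C + 4 + 6) * Real.log X) := by gcongr
        _ = N * Real.log X ^ (C + 11) := by rw [← pow_succ]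
    have hX4 : (X : ℝ) ≤ (2 : ℝ) ^ dg N * Real.log X ^ W := by
      refine hX2.trans (mul_le_mul_of_nonneg_right ?_ (by positivity))
      exact_mod_cast hNk
    have hX5 : 2 ^ dg N ≤ X := by
      have h1 : (1 : ℝ) ≤ Real.log X ^ (C + 4 + 6) := one_le_pow₀ (by linarith)
      have h2 : (2 : ℝ) ^ dg N ≤ X := by
        refine le_trans ?_ hX3
        exact le_mul_of_one_le_right (by positivity) h1
      exact_mod_cast h2
    have h1 := hr.count hN4 U (fun v => Q (c₀ + κ * (v : ℕ)))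
      (fun p hp => h0 (dg N) (dg_large k₀ N (by omega)) X hX5 (by push_cast; exact hX3) (by push_cast; exact hX4) p hp c₀ (by
          refine hc₀.trans (mul_le_mul_of_nonneg_left ?_ (Nat.cast_nonneg _))
          exact_mod_cast hNk) Q (fun z hz => by
        rw [hQ] at hz
        push Not at hz
        exact ⟨hz.1, fun hG => hz.2.2 (hX₁ X (by omega) _ hz.2.1 hG)⟩))
    refine le_trans ?_ h1
    apply Nat.cast_le.2
    apply card_le_card
    intro n hn'
    rw [mem_filter] at hn' ⊢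
    refine ⟨hn'.1, fun hcon => hn'.2 ?_⟩
    rw [hQ] at hcon
    intro hpos
    refine hcon hpos ?_
    have hv : ((⌊Real.exp (φ (Real.log n))⌋₊ : ℕ) : ℤ) ≤ N := by
      have := Nat.floor_le_of_le (hr.up n hn'.1)
      exact_mod_cast this
    have hv0 : (0 : ℤ) ≤ ((⌊Real.exp (φ (Real.log n))⌋₊ : ℕ) : ℤ) := Int.natCast_nonneg _
    have hD : ((c₀ + κ * (⌊Real.exp (φ (Real.log n))⌋₊ : ℕ)).toNat : ℤ) ≤ (B + κ.natAbs : ℕ) * N := by
      rw [Int.toNat_of_nonneg hpos.le]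
      have h2 : κ * (⌊Real.exp (φ (Real.log n))⌋₊ : ℕ) ≤ (κ.natAbs : ℤ) * N := by
        refine (le_abs_self _).trans ?_
        rw [abs_mul, Int.abs_eq_natAbs κ, abs_of_nonneg hv0]
        exact mul_le_mul_of_nonneg_left hv (Int.natCast_nonneg _)
      have h3 := (le_abs_self c₀).trans hc₀
      push_cast at h2 ⊢
      linarith
    have hD' : (((c₀ + κ * (⌊Real.exp (φ (Real.log n))⌋₊ : ℕ)).toNat : ℕ) : ℝ) ≤ (B + κ.natAbs : ℕ) * N := by
      exact_mod_cast hD
    obtain ⟨L, hL⟩ : ∃ L, L = Real.log (X : ℝ) := ⟨_, rfl⟩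
    rw [← hL] at hX1 hlX hlX1 hX3' ⊢
    have hL0 : 0 < L := by linarith
    rw [le_div_iff₀ (by positivity), add_mul]
    have e1 : (((c₀ + κ * (⌊Real.exp (φ (Real.log n))⌋₊ : ℕ)).toNat : ℕ) : ℝ) * L ^ (C + 1) ≤ X / 2 := by
      calc (((c₀ + κ * (⌊Real.exp (φ (Real.log n))⌋₊ : ℕ)).toNat : ℕ) : ℝ) * L ^ (C + 1) ≤
          ((B + κ.natAbs : ℕ) * N) * L ^ (C + 1) := mul_le_mul_of_nonneg_right hD' (by positivity)
        _ = ((B + κ.natAbs : ℕ) : ℝ) * (N * L ^ (C + 1)) := by ring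
        _ ≤ (L / 2) * (N * L ^ (C + 1)) := by
            apply mul_le_mul_of_nonneg_right _ (by positivity)
            push_cast
            linarith
        _ = N * L ^ (C + 2) / 2 := by rw [pow_succ L (C + 1)]; ring
        _ ≤ N * L ^ (C + 11) / 2 := by
            apply div_le_div_of_nonneg_right _ (by norm_num)
            exact mul_le_mul_of_nonneg_left (pow_le_pow_right₀ (by linarith) (by omega)) hN0.le
        _ ≤ X / 2 := by linarith
    have e2 : L ^ A₁ * L ^ (C + 1) ≤ X / 2 := by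
      have e3 : (1 + L) ^ (A₁ + C + 2) ≤ X := hX3'
      have e4 : L ^ (A₁ + C + 2) ≤ (1 + L) ^ (A₁ + C + 2) := pow_le_pow_left₀ hL0.le (by linarith) _
      have e5 : L ^ A₁ * L ^ (C + 1) * 2 ≤ L ^ (A₁ + C + 2) := by
        rw [← pow_add, show A₁ + C + 2 = (A₁ + (C + 1)) + 1 by ring, pow_succ]
        exact mul_le_mul_of_nonneg_left hlX (by positivity)
      linarith
    linarith
  · have hφ' : Pool.Agent.Run7.h673.SP.Rapid φ := hφ
    obtain ⟨X₀, h⟩ := hφ'.block' 0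
    exact ⟨X₀, fun X hX => ⟨(h X hX).2.lt, (h X hX).2.short, (h X hX).2.long, (h X hX).2.up, (h X hX).2.low⟩⟩

end Pool.Agent.Results.MP_70e905_nt.SuperpolynomialDifferences
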